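import Pool.Agent.Lib.MP_0f5321_co.Main

namespace Pool.Agent.Results.MP_0f5321_co.NoInfiniteTeam

open Pool.Agent.Lib.MP_0f5321_co

/-- No infinite team consisting only of finite polyominoes is a winner of the weak set
(1,2)-achievement game. -/
theorem result :
    ¬ ∃ F : Set Polyomino, IsTeam F ∧ F.Infinite ∧ (∀ p ∈ F, IsFinite p) ∧ Winner F := by
  rintro ⟨F, hteam, hinf, hfin, hwin⟩
  exact hinf (finite_of_winner F hfin hteam hwin)

end Pool.Agent.Results.MP_0f5321_co.NoInfiniteTeam
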